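import Pool.Agent.R537.VC.Asm
import Pool.Agent.R537.VC.PL
import Pool.Agent.R537.VC.CL
import Pool.Agent.R537.VC.HC

/-!
# The VC dimension of semialgebraic families

The reduction: let `∃ X ∀ Y ∈ {0,1}^U ∃ Z φ` be given. The points are `(X, j)` with `j ≤ |U|`, the
parameters are `(X', b', Z')` with `b' ∈ {0,1}^(|U| + 1)`, and the set of the parameters consists of
the points `(X, j)` with `X = X'`, `b'_j = 1`, provided that `b'_{|U|} = 0` or `φ(X, b', Z')`. A
shattered set with `|U| + 1` points is contained in one member of the family, so it is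
`{(X, j) : j ≤ |U|}` for one `X`.
-/

namespace Pool.Agent.Results.MP_77492d_lc.BooleanUniversalComplete

open Pool.Agent.NPC Pool.Agent.NPC.R537VC

/-- VC-SEMIALG is complete for the class of the sentences `∃ X ∀ Y ∃ Z φ` with real `X`, `Z` and
Boolean `Y`; so it is complete for `∃∀∃ℝ` if and only if the two classes are equal. -/
theorem result : (InEBE (lang VCdim) ∧ EBEHard (lang VCdim)) ∧
    ((InEAE (lang VCdim) ∧ EAEHard (lang VCdim)) ↔ ∀ L, InEAE L ↔ InEBE L) :=
  asm b_HC b_HP b_MC b_MP b_RC b_RP b_CL

end Pool.Agent.Results.MP_77492d_lc.BooleanUniversalComplete
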